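import Mathlib
import Pool.Agent.H.MP_29d814_co.C

namespace Pool.Agent.Results.MP_29d814_co.Counter

open MeasureTheory Pool.Agent.H.MP_29d814_co

theorem result :
    (∃ s : ProbabilityMeasure Traj, Optimal s) ∧
      ∀ s : ProbabilityMeasure Traj, Optimal s →
        0 < (s : Measure Traj) {S | Thrice S (0, -1) (0, -1 / 2)} :=
  ⟨exists_good.elim fun s0 _ => exists_optimal s0, thrice_pos⟩

end Pool.Agent.Results.MP_29d814_co.Counter
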